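import Pool.Agent.TH477.PA.Defs
set_option autoImplicit false

/-!
Colour-rich cliques (Property A): convex sequences with quadratic growth (job 642).
-/

namespace Pool.Agent.TH114.J642

open Finset Pool.Agent.TH477.PA

theorem J3_growth (f : ℕ → ℝ) (hconv : ∀ n, 1 ≤ n → 2 * f n ≤ f (n - 1) + f (n + 1)) (α K : ℝ)
    (hα : 0 ≤ α) (hup : ∀ ε : ℝ, 0 < ε → ∃ n1 : ℕ, ∀ n, n1 ≤ n → f n ≤ (α / 2 + ε) * (n : ℝ) ^ 2)
    (hlow : ∃ n2 : ℕ, ∀ n, n2 ≤ n → α / 2 * (n : ℝ) ^ 2 - K * n ≤ f n) (ε : ℝ) (hε : 0 < ε) :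
    ∃ n0 : ℕ, ∀ n, n0 ≤ n → (α - ε) * n ≤ f n - f (n - 1) := by
  -- monotonicity of the differences
  have hstep : ∀ a, 1 ≤ a → f a - f (a - 1) ≤ f (a + 1) - f (a + 1 - 1) := by
    intro a ha
    have h := hconv a ha
    rw [Nat.add_sub_cancel]
    linarith
  have hmono : ∀ a b, 1 ≤ a → a ≤ b → f a - f (a - 1) ≤ f b - f (b - 1) := by
    intro a b ha hab
    induction b, hab using Nat.le_induction with
    | base => exact le_rfl
    | succ b hb ih => exact ih.trans (hstep b (ha.trans hb))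
  have hsum : ∀ n k : ℕ, k ≤ n → f n - f (n - k) ≤ k * (f n - f (n - 1)) := by
    intro n k
    induction k with
    | zero => intro _; simp
    | succ k ih =>
      intro hk
      have h1 := ih (by omega)
      have h2 := hmono (n - k) n (by omega) (by omega)
      have h3 : n - k - 1 = n - (k + 1) := by omega
      rw [h3] at h2
      push_cast
      linarith
  -- parameters
  obtain ⟨t, ht0, ht1, ht2⟩ : ∃ t : ℝ, 0 < t ∧ t ≤ 1 / 2 ∧ α * t ≤ ε / 2 := by
    refine ⟨min (1 / 2) (ε / (2 * (α + 1))), lt_min (by norm_num) (by positivity),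
      min_le_left _ _, ?_⟩
    have h1 : α * min (1 / 2) (ε / (2 * (α + 1))) ≤ α * (ε / (2 * (α + 1))) :=
      mul_le_mul_of_nonneg_left (min_le_right _ _) hα
    have h2 : α * (ε / (2 * (α + 1))) ≤ ε / 2 := by
      rw [mul_div_assoc', div_le_div_iff₀ (by positivity) (by norm_num)]
      nlinarith
    exact h1.trans h2
  obtain ⟨n1, hn1⟩ := hup (ε * t / 8) (by positivity)
  obtain ⟨n2, hn2⟩ := hlow
  obtain ⟨n3, hn3⟩ := exists_nat_gt ((|K| + ε) * 2 / (ε * t))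
  refine ⟨max (max (2 * n1) n2) (max n3 1), fun n hn => ?_⟩
  have hna : 2 * n1 ≤ n := le_trans (le_max_left _ _) (le_trans (le_max_left _ _) hn)
  have hnb : n2 ≤ n := le_trans (le_max_right _ _) (le_trans (le_max_left _ _) hn)
  have hnc : n3 ≤ n := le_trans (le_max_left _ _) (le_trans (le_max_right _ _) hn)
  have hnd : 1 ≤ n := le_trans (le_max_right _ _) (le_trans (le_max_right _ _) hn)
  by_contra hcon
  rw [not_le] at hcon
  have hnR : (0 : ℝ) < n := by exact_mod_cast hnd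
  obtain ⟨k, hk⟩ : ∃ k : ℕ, k = ⌊t * n⌋₊ := ⟨_, rfl⟩
  have hk1 : (k : ℝ) ≤ t * n := by
    rw [hk]; exact Nat.floor_le (by positivity)
  have hk2 : t * n < k + 1 := by
    rw [hk]; exact Nat.lt_floor_add_one _
  have hk0 : (0 : ℝ) ≤ k := Nat.cast_nonneg k
  have hk3 : (2 : ℝ) * k ≤ n := by nlinarith
  have hk4 : 2 * k ≤ n := by exact_mod_cast hk3
  have hkn : k ≤ n := by omega
  have h1 := hsum n k hkn
  have h2 := hn2 n hnb
  have h3 := hn1 (n - k) (by omega)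
  rw [Nat.cast_sub hkn] at h3
  have h4 : (k : ℝ) * (f n - f (n - 1)) ≤ k * ((α - ε) * n) :=
    mul_le_mul_of_nonneg_left hcon.le hk0
  have h5 : ((n : ℝ) - k) ^ 2 ≤ (n : ℝ) ^ 2 := by nlinarith
  have h6 : ε * t / 8 * ((n : ℝ) - k) ^ 2 ≤ ε * t / 8 * (n : ℝ) ^ 2 :=
    mul_le_mul_of_nonneg_left h5 (by positivity)
  have h7 : α * (k : ℝ) ^ 2 ≤ ε / 2 * (k * n) := by
    have h8 : α * (k : ℝ) ^ 2 ≤ α * (k * (t * n)) := by
      refine mul_le_mul_of_nonneg_left ?_ hα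
      rw [pow_two]
      exact mul_le_mul_of_nonneg_left hk1 hk0
    have h9 : α * (k * (t * n)) = (α * t) * (k * n) := by ring
    rw [h9] at h8
    exact h8.trans (mul_le_mul_of_nonneg_right ht2 (by positivity))
  -- combine
  have h10 : k * ε * n ≤ α * (k : ℝ) ^ 2 / 2 + ε * t / 8 * (n : ℝ) ^ 2 + K * n := by
    have h11 : f n - f (n - k) ≥ α / 2 * (n : ℝ) ^ 2 - K * n -
      (α / 2 + ε * t / 8) * ((n : ℝ) - k) ^ 2 := by linarith
    nlinarith
  have h12 : (3 / 4) * ε * k * n ≤ (ε * t / 8 * n + K) * n := by nlinarith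
  have h13 : (3 / 4) * ε * k ≤ ε * t / 8 * n + K := le_of_mul_le_mul_right h12 hnR
  have h14 : K ≤ |K| := le_abs_self K
  have h15 : (|K| + ε) * 2 < ε * t * n := by
    have h16 : (|K| + ε) * 2 / (ε * t) < n := hn3.trans_le (by exact_mod_cast hnc)
    rw [div_lt_iff₀ (by positivity)] at h16
    linarith
  have h17 : ε * (t * n) < ε * (k + 1) := mul_lt_mul_of_pos_left hk2 hε
  have h18 : 0 ≤ |K| := abs_nonneg K
  nlinarith

end Pool.Agent.TH114.J642
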