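import Pool.Agent.TH476.KHub

set_option autoImplicit false

open Classical

namespace Pool.Agent.TH114.KGen

open Pool.Agent.TH476 Pool.Agent.TH476.KK

variable {V : Type}

lemma ex_lt {l : ℕ} (p : Fin (l + 1) → V) (i : ℕ) (h : i ≤ l) :
    ex l p i = p ⟨i, Nat.lt_succ_of_le h⟩ := by
  unfold ex
  congr 1
  exact Fin.ext (Nat.min_eq_left h)

lemma ex_ext {l : ℕ} {p p' : Fin (l + 1) → V} (h : ∀ i, i ≤ l → ex l p i = ex l p' i) :
    p = p' := by
  funext i
  have := h i.1 (Nat.le_of_lt_succ i.2)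
  rw [ex_lt _ _ (Nat.le_of_lt_succ i.2), ex_lt _ _ (Nat.le_of_lt_succ i.2)] at this
  exact this

/-- fibres over a finite set of values -/
lemma card_le_fib {α β : Type} (𝓢 : Finset α) (f : α → β) (B : Finset β) (m : ℕ)
    (hf : ∀ a ∈ 𝓢, f a ∈ B) (h : ∀ y ∈ B, (𝓢.filter (fun a => f a = y)).card ≤ m) :
    𝓢.card ≤ B.card * m := by
  rw [Finset.card_eq_sum_card_fiberwise (f := f) (t := B) (fun a ha => hf a ha),
    ← smul_eq_mul, ← Finset.sum_const]
  exact Finset.sum_le_sum fun y hy => h y hy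

lemma exists_next (l : ℕ) (J : Finset ℕ) (hJ : ∀ i ∈ J, i ≤ l) (hne : J.Nonempty)
    (hc : J.card ≤ l) : ∃ x y, x ≤ l ∧ x ∉ J ∧ y ∈ J ∧ (x + 1 = y ∨ y + 1 = x) := by
  by_contra hcon
  push Not at hcon
  obtain ⟨j, hj⟩ := hne
  have up : ∀ n, j + n ≤ l → j + n ∈ J := by
    intro n
    induction n with
    | zero => intro _; exact hj
    | succ n ih =>
      intro h
      by_contra h2
      have h3 := ih (by omega)
      exact (hcon (j + (n + 1)) (j + n) h h2 h3).2 (by omega)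
  have dn : ∀ n, n ≤ j → j - n ∈ J := by
    intro n
    induction n with
    | zero => intro _; exact hj
    | succ n ih =>
      intro h
      by_contra h2
      have h3 := ih (by omega)
      have h4 := hJ _ hj
      exact (hcon (j - (n + 1)) (j - n) (by omega) h2 h3).1 (by omega)
  have hall : Finset.range (l + 1) ⊆ J := by
    intro i hi
    rw [Finset.mem_range] at hi
    rcases le_total j i with h | h
    · have := up (i - j) (by omega)
      rwa [show j + (i - j) = i by omega] at this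
    · have := dn (j - i) (by omega)
      rwa [show j - (j - i) = i by omega] at this
  have := Finset.card_le_card hall
  rw [Finset.card_range] at this
  omega

/-- walks with prescribed values on a nonempty set of positions -/
lemma cl [Fintype V] {G : SimpleGraph V} {D K : ℕ} (hG : AR G D K) (l : ℕ) :
    ∀ (n : ℕ) (J : Finset ℕ), l + 1 - J.card = n → (∀ i ∈ J, i ≤ l) → J.Nonempty →
    ∀ 𝓢 : Finset (Fin (l + 1) → V),
    (∀ p ∈ 𝓢, ∀ i, i < l → G.Adj (ex l p i) (ex l p (i + 1))) →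
    (∀ p ∈ 𝓢, ∀ p' ∈ 𝓢, ∀ i ∈ J, ex l p i = ex l p' i) → 𝓢.card ≤ (K * D) ^ n := by
  intro n
  induction n with
  | zero =>
    intro J hn hJ hne 𝓢 hw hag
    have hJ' : J ⊆ Finset.range (l + 1) := fun i hi =>
      Finset.mem_range.mpr (Nat.lt_succ_of_le (hJ i hi))
    have hall : J = Finset.range (l + 1) := by
      apply Finset.eq_of_subset_of_card_le hJ'
      rw [Finset.card_range]
      omega
    rw [pow_zero, Finset.card_le_one]
    intro p hp p' hp'
    exact ex_ext fun i hi => hag p hp p' hp' i (by rw [hall, Finset.mem_range]; omega)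
  | succ n ih =>
    intro J hn hJ hne 𝓢 hw hag
    rcases 𝓢.eq_empty_or_nonempty with h0 | ⟨p0, hp0⟩
    · rw [h0]; simp
    obtain ⟨x, y, hx, hxJ, hy, hxy⟩ := exists_next l J hJ hne (by omega)
    have h1 := card_le_fib 𝓢 (fun p => ex l p x) (nb G (ex l p0 y)) ((K * D) ^ n) (by
      intro p hp
      rw [mem_nb, ← hag p hp p0 hp0 y hy]
      rcases hxy with h | h
      · rw [← h]
        exact (hw p hp x (by have := hJ y hy; omega)).symm
      · rw [← h]
        exact hw p hp y (by omega)) (by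
      intro v _
      refine ih (insert x J) (by rw [Finset.card_insert_of_notMem hxJ]; omega) ?_
        ⟨x, Finset.mem_insert_self _ _⟩ _ ?_ ?_
      · intro i hi
        rcases Finset.mem_insert.mp hi with h | h
        · rw [h]; exact hx
        · exact hJ i h
      · intro p hp
        exact hw p (Finset.mem_filter.mp hp).1
      · intro p hp p' hp' i hi
        rw [Finset.mem_filter] at hp hp'
        rcases Finset.mem_insert.mp hi with h | h
        · rw [h]; exact hp.2.trans hp'.2.symm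
        · exact hag p hp.1 p' hp'.1 i h)
    calc 𝓢.card ≤ (nb G (ex l p0 y)).card * (K * D) ^ n := h1
      _ ≤ (K * D) * (K * D) ^ n := Nat.mul_le_mul_right _ (hG.hi _)
      _ = (K * D) ^ (n + 1) := by ring

/-- restriction to the positions a, ..., a + m -/
def sb (l a m : ℕ) (p : Fin (l + 1) → V) : Fin (m + 1) → V := fun i => ex l p (a + i.1)

lemma ex_sb (l a m : ℕ) (p : Fin (l + 1) → V) (i : ℕ) (hi : i ≤ m) :
    ex m (sb l a m p) i = ex l p (a + i) := by
  rw [ex_lt _ _ hi]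
  rfl

lemma key_card [Fintype V] {G : SimpleGraph V} {D K : ℕ} (hG : AR G D K) (l a m c : ℕ)
    (ham : a + m ≤ l) (hc : a ≤ c) (hc' : c ≤ a + m) (𝓢 : Finset (Fin (l + 1) → V))
    (hw : ∀ p ∈ 𝓢, ∀ i, i < l → G.Adj (ex l p i) (ex l p (i + 1))) (w : V)
    (hag : ∀ p ∈ 𝓢, ex l p c = w) : ∃ T : Finset (Fin (m + 1) → V), T.card ≤ (K * D) ^ m ∧
      ∀ p ∈ 𝓢, sb l a m p ∈ T := by
  refine ⟨𝓢.image (sb l a m), ?_, fun p hp => Finset.mem_image_of_mem _ hp⟩
  refine cl hG m m {c - a} (by simp) ?_ ⟨_, Finset.mem_singleton_self _⟩ _ ?_ ?_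
  · intro i hi
    rw [Finset.mem_singleton] at hi
    omega
  · intro p hp i hi
    obtain ⟨p', hp', rfl⟩ := Finset.mem_image.mp hp
    rw [ex_sb _ _ _ _ _ (by omega), ex_sb _ _ _ _ _ (by omega)]
    exact hw p' hp' (a + i) (by omega)
  · intro p hp p' hp' i hi
    obtain ⟨r, hr, rfl⟩ := Finset.mem_image.mp hp
    obtain ⟨r', hr', rfl⟩ := Finset.mem_image.mp hp'
    rw [Finset.mem_singleton] at hi
    rw [ex_sb _ _ _ _ _ (by omega), ex_sb _ _ _ _ _ (by omega), hi,
      show a + (c - a) = c by omega, hag r hr, hag r' hr']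

/-- averaging -/
lemma av0 {σ π κ : Type} (S : Finset σ) (R : σ → Finset π) (key : π → κ) (A a N1 N2 : ℕ)
    (T : Finset κ) (hS : S.Nonempty) (hA : 0 < A) (h1 : ∀ s ∈ S, A ≤ a * (R s).card)
    (hT : ∀ s ∈ S, ∀ p ∈ R s, key p ∈ T) (hk : T.card ≤ N1)
    (h2 : ∀ s ∈ S, ∀ τ, ((R s).filter (fun p => key p = τ)).card ≤ N2) :
    ∃ τ, S.card * A ≤ 2 * a * N1 * N2 *
      (S.filter (fun s => A ≤ 2 * a * N1 * ((R s).filter (fun p => key p = τ)).card)).card := by
  by_contra hcon
  push Not at hcon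
  have hTne : T.Nonempty := by
    obtain ⟨s, hs⟩ := hS
    have h := h1 s hs
    have h3 : (R s).Nonempty := by
      rw [Finset.nonempty_iff_ne_empty]
      intro h4
      rw [h4, Finset.card_empty] at h
      omega
    obtain ⟨p, hp⟩ := h3
    exact ⟨key p, hT s hs p hp⟩
  have hsum : ∑ τ ∈ T, ∑ s ∈ S, ((R s).filter (fun p => key p = τ)).card =
      ∑ s ∈ S, (R s).card := by
    rw [Finset.sum_comm]
    refine Finset.sum_congr rfl fun s hs => ?_
    rw [Finset.card_eq_sum_card_fiberwise (f := key) (t := T)]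
    intro p hp
    exact hT s hs p hp
  have hτ : ∀ τ ∈ T, 2 * a * N1 * ∑ s ∈ S, ((R s).filter (fun p => key p = τ)).card <
      2 * (S.card * A) := by
    intro τ _
    have h := hcon τ
    have h3 : 2 * a * N1 * ∑ s ∈ S, ((R s).filter (fun p => key p = τ)).card ≤
        2 * a * N1 * N2 *
        (S.filter (fun s => A ≤ 2 * a * N1 * ((R s).filter (fun p => key p = τ)).card)).card +
        S.card * A := by
      rw [Finset.mul_sum, Finset.card_filter, Finset.mul_sum]
      have h4 : S.card * A = ∑ s ∈ S, A := by rw [Finset.sum_const, smul_eq_mul]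
      rw [h4, ← Finset.sum_add_distrib]
      refine Finset.sum_le_sum fun s hs => ?_
      by_cases hg : A ≤ 2 * a * N1 * ((R s).filter (fun p => key p = τ)).card
      · rw [if_pos hg, mul_one]
        have := Nat.mul_le_mul_left (2 * a * N1) (h2 s hs τ)
        omega
      · rw [if_neg hg]
        omega
    omega
  have h5 : ∑ τ ∈ T, 2 * a * N1 * ∑ s ∈ S, ((R s).filter (fun p => key p = τ)).card <
      ∑ τ ∈ T, 2 * (S.card * A) := Finset.sum_lt_sum_of_nonempty hTne hτ
  rw [← Finset.mul_sum, hsum, Finset.sum_const, smul_eq_mul] at h5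
  have h6 : S.card * A ≤ a * ∑ s ∈ S, (R s).card := by
    rw [Finset.mul_sum, ← smul_eq_mul, ← Finset.sum_const]
    exact Finset.sum_le_sum h1
  have h7 : T.card * (2 * (S.card * A)) ≤ N1 * (2 * (S.card * A)) := Nat.mul_le_mul_right _ hk
  have h8 : N1 * (2 * (S.card * A)) ≤ 2 * a * N1 * ∑ s ∈ S, (R s).card := by
    calc N1 * (2 * (S.card * A)) ≤ N1 * (2 * (a * ∑ s ∈ S, (R s).card)) :=
          Nat.mul_le_mul_left _ (Nat.mul_le_mul_left _ h6)
      _ = _ := by ring
  omega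

lemma av {σ π κ : Type} (S : Finset σ) (R : σ → Finset π) (key : π → κ) (A a N1 N2 : ℕ)
    (T : Finset κ) (hS : S.Nonempty) (hA : 0 < A) (h1 : ∀ s ∈ S, A ≤ a * (R s).card)
    (hT : ∀ s ∈ S, ∀ p ∈ R s, key p ∈ T) (hk : T.card ≤ N1)
    (h2 : ∀ s ∈ S, ∀ τ, ∀ F : Finset π, (∀ p ∈ F, p ∈ R s ∧ key p = τ) → F.card ≤ N2) :
    ∃ (τ : κ) (Sg : Finset σ), Sg ⊆ S ∧ S.card * A ≤ 2 * a * N1 * N2 * Sg.card ∧
      ∀ s ∈ Sg, ∃ F : Finset π, (∀ p, p ∈ F ↔ p ∈ R s ∧ key p = τ) ∧
        A ≤ 2 * a * N1 * F.card := by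
  obtain ⟨τ, hτ⟩ := av0 S R key A a N1 N2 T hS hA h1 hT hk (fun s hs τ =>
    h2 s hs τ _ (fun p hp => Finset.mem_filter.mp hp))
  refine ⟨τ, _, Finset.filter_subset _ _, hτ, fun s hs => ?_⟩
  exact ⟨_, fun p => Finset.mem_filter, (Finset.mem_filter.mp hs).2⟩

/-- greedy selection of disjoint paths -/
lemma gl (e : ℕ) (Sg X0 : Finset V) (ζ' : ℕ) (Φ : (ℕ → V) → Prop) (hSX : Sg ⊆ X0)
    (H : ∀ s ∈ Sg, ∀ X : Finset V, X.card ≤ ζ' → X0 ⊆ X → ∃ P : ℕ → V, P 0 = s ∧ Φ P ∧
      (∀ i, 1 ≤ i → i ≤ e → P i ∉ X) ∧ ∀ i i', i ≤ e → i' ≤ e → P i = P i' → i = i') (n' : ℕ)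
    (hn : n' ≤ Sg.card) (hc : X0.card + n' * (e + 1) ≤ ζ') :
    ∃ P : Fin n' → ℕ → V, (∀ l, P l 0 ∈ Sg ∧ Φ (P l) ∧ ∀ i, 1 ≤ i → i ≤ e → P l i ∉ X0) ∧
      ∀ l l' i i', i ≤ e → i' ≤ e → P l i = P l' i' → l = l' ∧ i = i' := by
  rcases Nat.eq_zero_or_pos n' with h0 | h0
  · subst h0
    exact ⟨fun l => l.elim0, fun l => l.elim0, fun l => l.elim0⟩
  obtain ⟨s0, hs0⟩ : Sg.Nonempty := Finset.card_pos.mp (by omega)
  obtain ⟨S', hS', hS'c⟩ := Finset.exists_subset_card_eq hn
  obtain ⟨f, hf1, hf2⟩ : ∃ f : ℕ → V, (∀ l, l < n' → f l ∈ Sg) ∧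
      ∀ l l', l < n' → l' < n' → f l = f l' → l = l' := by
    let eq := S'.equivFinOfCardEq hS'c
    refine ⟨fun l => if h : l < n' then (eq.symm ⟨l, h⟩ : V) else s0, ?_, ?_⟩
    · intro l hl
      simp only [dif_pos hl]
      exact hS' (eq.symm ⟨l, hl⟩).2
    · intro l l' hl hl' h
      simp only [dif_pos hl, dif_pos hl'] at h
      have := eq.symm.injective (Subtype.ext h)
      exact Fin.mk.inj_iff.mp this
  have key : ∀ m, m ≤ n' → ∃ P : ℕ → ℕ → V,
      (∀ l, l < m → P l 0 = f l ∧ Φ (P l) ∧ ∀ i, 1 ≤ i → i ≤ e → P l i ∉ X0) ∧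
      ∀ l l', l < m → l' < m → ∀ i i', i ≤ e → i' ≤ e → P l i = P l' i' → l = l' ∧ i = i' := by
    intro m
    induction m with
    | zero => exact fun _ => ⟨fun _ _ => s0, fun l hl => by omega, fun l l' hl => by omega⟩
    | succ m ih =>
      intro hm
      obtain ⟨P, hP1, hP2⟩ := ih (by omega)
      obtain ⟨X, hX⟩ : ∃ X : Finset V, X = X0 ∪ (Finset.range m).biUnion
        (fun l => (Finset.range (e + 1)).image (P l)) := ⟨_, rfl⟩
      have hXc : X.card ≤ ζ' := by
        have h1 : ((Finset.range m).biUnion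
            (fun l => (Finset.range (e + 1)).image (P l))).card ≤
            (Finset.range m).card * (e + 1) := by
          refine Finset.card_biUnion_le_card_mul _ _ _ fun l _ => ?_
          exact Finset.card_image_le.trans (by rw [Finset.card_range])
        rw [Finset.card_range] at h1
        have h2 := Finset.card_union_le X0 ((Finset.range m).biUnion
            (fun l => (Finset.range (e + 1)).image (P l)))
        rw [← hX] at h2
        have h3 : m * (e + 1) ≤ n' * (e + 1) := Nat.mul_le_mul_right _ (by omega)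
        omega
      obtain ⟨Q, hQ0, hQΦ, hQX, hQi⟩ := H (f m) (hf1 m (by omega)) X hXc
        (by rw [hX]; exact Finset.subset_union_left)
      have hmem : ∀ l i, l < m → i ≤ e → P l i ∈ X := by
        intro l i hl hi
        rw [hX]
        refine Finset.mem_union_right _ (Finset.mem_biUnion.mpr
          ⟨l, Finset.mem_range.mpr hl, Finset.mem_image_of_mem _ ?_⟩)
        exact Finset.mem_range.mpr (by omega)
      have hX0 : ∀ v, v ∈ X0 → v ∈ X := fun v hv => by
        rw [hX]; exact Finset.mem_union_left _ hv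
      -- the new path does not meet the old ones
      have hcross : ∀ l i i', l < m → i ≤ e → i' ≤ e → P l i = Q i' → False := by
        intro l i i' hl hi hi' h
        rcases Nat.eq_zero_or_pos i' with h' | h'
        · rw [h', hQ0] at h
          rcases Nat.eq_zero_or_pos i with h2 | h2
          · rw [h2, (hP1 l hl).1] at h
            have := hf2 l m (by omega) (by omega) h
            omega
          · refine (hP1 l hl).2.2 i h2 hi ?_
            rw [h]
            exact hSX (hf1 m (by omega))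
        · refine hQX i' h' hi' ?_
          rw [← h]
          exact hmem l i hl hi
      refine ⟨fun l => if l < m then P l else Q, ?_, ?_⟩
      · intro l hl
        by_cases h : l < m
        · simp only [if_pos h]
          exact hP1 l h
        · simp only [if_neg h]
          have : l = m := by omega
          subst this
          exact ⟨hQ0, hQΦ, fun i hi hi' h' => hQX i hi hi' (hX0 _ h')⟩
      · intro l l' hl hl' i i' hi hi' h
        by_cases h1 : l < m
        · by_cases h2 : l' < m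
          · simp only [if_pos h1, if_pos h2] at h
            exact hP2 l l' h1 h2 i i' hi hi' h
          · simp only [if_pos h1, if_neg h2] at h
            exact (hcross l i i' h1 hi hi' h).elim
        · by_cases h2 : l' < m
          · simp only [if_neg h1, if_pos h2] at h
            exact (hcross l' i' i h2 hi' hi h.symm).elim
          · simp only [if_neg h1, if_neg h2] at h
            exact ⟨by omega, hQi i i' hi hi' h⟩
  obtain ⟨P, hP1, hP2⟩ := key n' le_rfl
  refine ⟨fun l => P l.1, ?_, ?_⟩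
  · intro l
    obtain ⟨h1, h2, h3⟩ := hP1 l.1 l.2
    refine ⟨?_, h2, h3⟩
    show P l.1 0 ∈ Sg
    rw [h1]
    exact hf1 _ l.2
  · intro l l' i i' hi hi' h
    obtain ⟨h1, h2⟩ := hP2 l.1 l'.1 l.2 l'.2 i i' hi hi' h
    exact ⟨Fin.ext h1, h2⟩

/-- one move: a common root rho and many members of the family for many s -/
lemma ml [Fintype V] {G : SimpleGraph V} {D K : ℕ} (hG : AR G D K) (hK : 0 < K)
    {B : ℕ → V → V → Prop} {l q M' : ℕ} (hq : 0 < q) {𝓡 : Finset (Fin (l + 1) → V)}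
    (hR : RSt G B l q D M' 𝓡) (xs xw xr a m : ℕ) (hxs : xs ≤ l) (ham : a + m ≤ l)
    (hw1 : a ≤ xw) (hw2 : xw ≤ a + m) (hr1 : a ≤ xr) (hr2 : xr ≤ a + m) (hrw : xr ≠ xw)
    (hsa : xs < a ∨ a + m < xs) (hadj : xs + 1 = xw ∨ xw + 1 = xs) (ζ ζ' : ℕ)
    (hD : 4 * q * (l + 1) * (2 * ζ + ζ' + 1) * K ^ l < D)
    (w : V) (S Z : Finset V) (hne : S.Nonempty) (hSc : S.card ≤ ζ) (hZc : Z.card ≤ ζ)
    (hS : ∀ s ∈ S, ∃ p ∈ 𝓡, ex l p xs = s ∧ ex l p xw = w) :
    ∃ (ρ : V) (Sg : Finset V), ρ ∉ Z ∧ ρ ∉ S ∧ Sg ⊆ S ∧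
      S.card ≤ 4 * q * K ^ (l - 1) * Sg.card ∧
      ∀ s ∈ Sg, ∀ X : Finset V, X.card ≤ ζ' → ∃ p ∈ 𝓡, ex l p xs = s ∧ ex l p xw = w ∧
        ex l p xr = ρ ∧ ∀ x, x ≤ l → (x < a ∨ a + m < x) → x ≠ xs → ex l p x ∉ X := by
  have hl : 2 ≤ l := by omega
  have hrs : xr ≠ xs := by omega
  have hws : xw ≠ xs := by omega
  have hwalk : ∀ p ∈ 𝓡, ∀ i, i < l → G.Adj (ex l p i) (ex l p (i + 1)) := by
    intro p hp i hi
    have h := hR.sub p hp
    unfold RCs at h
    rw [Finset.mem_filter] at h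
    exact h.2.1.1 i hi
  obtain ⟨l2, hl2⟩ : ∃ l2, l = l2 + 2 := ⟨l - 2, by omega⟩
  have hDpos : 0 < D := by omega
  have hA : D ^ (l - 1) = D * D ^ l2 := by
    rw [show l - 1 = l2 + 1 by omega, pow_succ, mul_comm]
  have hKl : K ^ l2 ≤ K ^ l := Nat.pow_le_pow_right hK (by omega)
  have hDζ : 4 * q * (l + 1) * (2 * ζ + ζ' + 1) * K ^ l2 < D :=
    lt_of_le_of_lt (Nat.mul_le_mul_left _ hKl) hD
  have hP : 0 < D ^ l2 := pow_pos hDpos _
  -- the classes
  have hc : ∀ s ∈ S, D ^ (l - 1) ≤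
      q * (𝓡.filter (fun p => ex l p xs = s ∧ ex l p xw = w)).card := by
    intro s hs
    obtain ⟨p, hp, hp1, hp2⟩ := hS s hs
    rcases hadj with h | h
    · have h1 := hR.cls p hp xs xw (by omega) (by omega)
      rw [show l - (xw - xs) = l - 1 by omega] at h1
      refine h1.trans (Nat.mul_le_mul_left _ (Finset.card_le_card ?_))
      intro p' hp'
      rw [Finset.mem_filter] at hp' ⊢
      exact ⟨hp'.1, (hp'.2 xs le_rfl (by omega)).trans hp1,
        (hp'.2 xw (by omega) le_rfl).trans hp2⟩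
    · have h1 := hR.cls p hp xw xs (by omega) (by omega)
      rw [show l - (xs - xw) = l - 1 by omega] at h1
      refine h1.trans (Nat.mul_le_mul_left _ (Finset.card_le_card ?_))
      intro p' hp'
      rw [Finset.mem_filter] at hp' ⊢
      exact ⟨hp'.1, (hp'.2 xs (by omega) le_rfl).trans hp1,
        (hp'.2 xw le_rfl (by omega)).trans hp2⟩
  obtain ⟨R, hRdef⟩ : ∃ R : V → Finset (Fin (l + 1) → V), ∀ s, R s = 𝓡.filter
    (fun p => ex l p xs = s ∧ ex l p xw = w ∧ ex l p xr ∉ Z ∪ S) := ⟨_, fun _ => rfl⟩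
  have hRmem : ∀ s p, p ∈ R s ↔ p ∈ 𝓡 ∧ ex l p xs = s ∧ ex l p xw = w ∧ ex l p xr ∉ Z ∪ S := by
    intro s p
    rw [hRdef, Finset.mem_filter]
  have hZS : (Z ∪ S).card ≤ 2 * ζ := by
    have := Finset.card_union_le Z S
    omega
  have hR1 : ∀ s ∈ S, D ^ (l - 1) ≤ 2 * q * (R s).card := by
    intro s hs
    have h1 := hc s hs
    have h2 : (𝓡.filter (fun p => ex l p xs = s ∧ ex l p xw = w)).card ≤
        (R s).card + (Z ∪ S).card * (K * D) ^ l2 := by
      have h3 : 𝓡.filter (fun p => ex l p xs = s ∧ ex l p xw = w) ⊆ R s ∪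
          𝓡.filter (fun p => (ex l p xs = s ∧ ex l p xw = w) ∧ ex l p xr ∈ Z ∪ S) := by
        intro p hp
        rw [Finset.mem_filter] at hp
        rw [Finset.mem_union, hRmem, Finset.mem_filter]
        by_cases h : ex l p xr ∈ Z ∪ S
        · exact Or.inr ⟨hp.1, hp.2, h⟩
        · exact Or.inl ⟨hp.1, hp.2.1, hp.2.2, h⟩
      refine (Finset.card_le_card h3).trans ((Finset.card_union_le _ _).trans ?_)
      refine Nat.add_le_add_left ?_ _
      refine card_le_fib _ (fun p => ex l p xr) _ _ (fun p hp => (Finset.mem_filter.mp hp).2.2) ?_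
      intro y _
      refine cl hG l l2 {xs, xw, xr} ?_ ?_ ⟨xs, by simp⟩ _ ?_ ?_
      · rw [Finset.card_insert_of_notMem (by simp; omega),
          Finset.card_insert_of_notMem (by simp; omega), Finset.card_singleton]
        omega
      · intro i hi
        simp only [Finset.mem_insert, Finset.mem_singleton] at hi
        omega
      · intro p hp
        rw [Finset.mem_filter, Finset.mem_filter] at hp
        exact hwalk p hp.1.1
      · intro p hp p' hp' i hi
        rw [Finset.mem_filter, Finset.mem_filter] at hp hp'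
        simp only [Finset.mem_insert, Finset.mem_singleton] at hi
        rcases hi with rfl | rfl | rfl
        · rw [hp.1.2.1.1, hp'.1.2.1.1]
        · rw [hp.1.2.1.2, hp'.1.2.1.2]
        · rw [hp.2, hp'.2]
    have h4 : (Z ∪ S).card * (K * D) ^ l2 ≤ 2 * ζ * (K ^ l2 * D ^ l2) := by
      rw [mul_pow]
      exact Nat.mul_le_mul_right _ hZS
    have h5 : q * (2 * ζ * (K ^ l2 * D ^ l2)) * 2 ≤ D * D ^ l2 := by
      have h6 : 4 * q * ζ * K ^ l2 ≤ 4 * q * (l + 1) * (2 * ζ + ζ' + 1) * K ^ l2 := by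
        refine Nat.mul_le_mul_right _ ?_
        have h7 : ζ ≤ (l + 1) * (2 * ζ + ζ' + 1) := by nlinarith
        calc 4 * q * ζ ≤ 4 * q * ((l + 1) * (2 * ζ + ζ' + 1)) := Nat.mul_le_mul_left _ h7
          _ = _ := by ring
      calc q * (2 * ζ * (K ^ l2 * D ^ l2)) * 2 = (4 * q * ζ * K ^ l2) * D ^ l2 := by ring
        _ ≤ D * D ^ l2 := Nat.mul_le_mul_right _ (by omega)
    rw [hA] at h1 ⊢
    have h8 : q * (𝓡.filter (fun p => ex l p xs = s ∧ ex l p xw = w)).card ≤
        q * ((R s).card + 2 * ζ * (K ^ l2 * D ^ l2)) :=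
      Nat.mul_le_mul_left _ (h2.trans (Nat.add_le_add_left h4 _))
    rw [mul_add] at h8
    have h9 : 2 * q * (R s).card = q * (R s).card * 2 := by ring
    omega
  have hApos : 0 < D ^ (l - 1) := pow_pos hDpos _
  obtain ⟨T, hTc, hT⟩ := key_card hG l a m xw ham hw1 hw2
    (𝓡.filter (fun p => ex l p xw = w)) (fun p hp => hwalk p (Finset.mem_filter.mp hp).1) w
    (fun p hp => (Finset.mem_filter.mp hp).2)
  obtain ⟨τ, Sg, hSgS, hτ, hSg⟩ := av S R (sb l a m) (D ^ (l - 1)) (2 * q) ((K * D) ^ m)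
    ((K * D) ^ (l - 1 - m)) T hne hApos hR1
    (by
      intro s _ p hp
      have hp' := (hRmem s p).mp hp
      exact hT p (Finset.mem_filter.mpr ⟨hp'.1, hp'.2.2.1⟩)) hTc
    (by
      intro s _ τ F hF
      refine cl hG l (l - 1 - m) (insert xs (Finset.Icc a (a + m))) ?_ ?_
        ⟨xs, Finset.mem_insert_self _ _⟩ _ ?_ ?_
      · rw [Finset.card_insert_of_notMem (by rw [Finset.mem_Icc]; omega), Nat.card_Icc]
        omega
      · intro i hi
        rw [Finset.mem_insert, Finset.mem_Icc] at hi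
        omega
      · intro p hp
        exact hwalk p ((hRmem s p).mp (hF p hp).1).1
      · intro p hp p' hp' i hi
        have hp1 := hF p hp
        have hp1' := hF p' hp'
        rw [hRmem] at hp1 hp1'
        rw [Finset.mem_insert, Finset.mem_Icc] at hi
        rcases hi with rfl | hi
        · rw [hp1.1.2.1, hp1'.1.2.1]
        · have h1 : ex m (sb l a m p) (i - a) = ex m (sb l a m p') (i - a) := by
            rw [hp1.2, hp1'.2]
          rw [ex_sb _ _ _ _ _ (by omega), ex_sb _ _ _ _ _ (by omega),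
            show a + (i - a) = i by omega] at h1
          exact h1)
  have hml : m ≤ l - 1 := by omega
  have hcard : S.card ≤ 4 * q * K ^ (l - 1) * Sg.card := by
    have h1 : 2 * (2 * q) * (K * D) ^ m * (K * D) ^ (l - 1 - m) * Sg.card =
        (4 * q * K ^ (l - 1) * Sg.card) * D ^ (l - 1) := by
      have h2 : (K * D) ^ m * (K * D) ^ (l - 1 - m) = K ^ (l - 1) * D ^ (l - 1) := by
        rw [← pow_add, ← mul_pow]
        congr 1
        omega
      calc 2 * (2 * q) * (K * D) ^ m * (K * D) ^ (l - 1 - m) * Sg.card =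
          2 * (2 * q) * ((K * D) ^ m * (K * D) ^ (l - 1 - m)) * Sg.card := by ring
        _ = _ := by rw [h2]; ring
    rw [h1] at hτ
    exact Nat.le_of_mul_le_mul_right hτ hApos
  have hSgne : Sg.Nonempty := by
    rw [← Finset.card_pos]
    rcases Nat.eq_zero_or_pos Sg.card with h | h
    · rw [h, mul_zero] at hcard
      have := Finset.card_pos.mpr hne
      omega
    · exact h
  have hfib : ∀ s ∈ Sg, ∃ F : Finset (Fin (l + 1) → V),
      (∀ p, p ∈ F ↔ p ∈ R s ∧ sb l a m p = τ) ∧ F.Nonempty ∧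
      D ^ (l - 1) ≤ 4 * q * (K * D) ^ m * F.card := by
    intro s hs
    obtain ⟨F, hF1, hF2⟩ := hSg s hs
    rw [show 2 * (2 * q) = 4 * q by ring] at hF2
    refine ⟨F, hF1, ?_, hF2⟩
    rw [← Finset.card_pos]
    rcases Nat.eq_zero_or_pos F.card with h | h
    · rw [h, mul_zero] at hF2
      omega
    · exact h
  have hroot : ∀ p, sb l a m p = τ → ex l p xr = ex m τ (xr - a) := by
    intro p hp
    rw [← hp, ex_sb _ _ _ _ _ (by omega), show a + (xr - a) = xr by omega]
  have hroot' : ex m τ (xr - a) ∉ Z ∪ S := by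
    obtain ⟨s, hs⟩ := hSgne
    obtain ⟨F, hF1, ⟨p, hp⟩, _⟩ := hfib s hs
    rw [← hroot p ((hF1 p).mp hp).2]
    exact ((hRmem s p).mp ((hF1 p).mp hp).1).2.2.2
  refine ⟨ex m τ (xr - a), Sg, fun h => hroot' (Finset.mem_union_left _ h),
    fun h => hroot' (Finset.mem_union_right _ h), hSgS, hcard, ?_⟩
  intro s hs X hX
  obtain ⟨F, hF1, ⟨p0, hp0⟩, hF2⟩ := hfib s hs
  by_contra hcon
  push Not at hcon
  have hbad : ∀ p ∈ F, ∃ x, x ≤ l ∧ (x < a ∨ a + m < x) ∧ x ≠ xs ∧ ex l p x ∈ X := by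
    intro p hp
    have h1 := (hRmem s p).mp ((hF1 p).mp hp).1
    exact hcon p h1.1 h1.2.1 h1.2.2.1 (hroot p ((hF1 p).mp hp).2)
  obtain ⟨x0, hx01, hx02, hx03, _⟩ := hbad p0 hp0
  have hm3 : m + 2 ≤ l := by omega
  obtain ⟨Rs, hRs⟩ : ∃ Rs : Finset ℕ, Rs = (Finset.range (l + 1)).filter
    (fun x => (x < a ∨ a + m < x) ∧ x ≠ xs) := ⟨_, rfl⟩
  have h1 : F.card ≤ (l + 1) * (ζ' * (K * D) ^ (l - 2 - m)) := by
    have h2 : F ⊆ Rs.biUnion (fun x => F.filter (fun p => ex l p x ∈ X)) := by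
      intro p hp
      obtain ⟨x, hx1, hx2, hx3, hx4⟩ := hbad p hp
      refine Finset.mem_biUnion.mpr ⟨x, ?_, Finset.mem_filter.mpr ⟨hp, hx4⟩⟩
      rw [hRs, Finset.mem_filter, Finset.mem_range]
      exact ⟨by omega, hx2, hx3⟩
    refine (Finset.card_le_card h2).trans ?_
    have h3 : Rs.card ≤ l + 1 := by
      rw [hRs]
      exact (Finset.card_filter_le _ _).trans (by rw [Finset.card_range])
    refine (Finset.card_biUnion_le_card_mul _ _ (ζ' * (K * D) ^ (l - 2 - m)) ?_).trans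
      (Nat.mul_le_mul_right _ h3)
    intro x hx
    rw [hRs, Finset.mem_filter, Finset.mem_range] at hx
    refine (card_le_fib _ (fun p => ex l p x) X ((K * D) ^ (l - 2 - m))
      (fun p hp => (Finset.mem_filter.mp hp).2) ?_).trans (Nat.mul_le_mul_right _ hX)
    intro y _
    refine cl hG l (l - 2 - m) (insert x (insert xs (Finset.Icc a (a + m)))) ?_ ?_
      ⟨x, Finset.mem_insert_self _ _⟩ _ ?_ ?_
    · rw [Finset.card_insert_of_notMem (by rw [Finset.mem_insert, Finset.mem_Icc]; omega),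
        Finset.card_insert_of_notMem (by rw [Finset.mem_Icc]; omega), Nat.card_Icc]
      omega
    · intro i hi
      rw [Finset.mem_insert, Finset.mem_insert, Finset.mem_Icc] at hi
      omega
    · intro p hp
      rw [Finset.mem_filter, Finset.mem_filter] at hp
      exact hwalk p ((hRmem s p).mp ((hF1 p).mp hp.1.1).1).1
    · intro p hp p' hp' i hi
      rw [Finset.mem_filter, Finset.mem_filter, hF1, hRmem] at hp hp'
      rw [Finset.mem_insert, Finset.mem_insert, Finset.mem_Icc] at hi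
      rcases hi with rfl | rfl | hi
      · rw [hp.2, hp'.2]
      · rw [hp.1.1.1.2.1, hp'.1.1.1.2.1]
      · have h1 : ex m (sb l a m p) (i - a) = ex m (sb l a m p') (i - a) := by
          rw [hp.1.1.2, hp'.1.1.2]
        rw [ex_sb _ _ _ _ _ (by omega), ex_sb _ _ _ _ _ (by omega),
          show a + (i - a) = i by omega] at h1
        exact h1
  have h3 : 4 * q * (K * D) ^ m * F.card ≤
      4 * q * (K * D) ^ m * ((l + 1) * (ζ' * (K * D) ^ (l - 2 - m))) :=
    Nat.mul_le_mul_left _ h1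
  have h4 : 4 * q * (K * D) ^ m * ((l + 1) * (ζ' * (K * D) ^ (l - 2 - m))) =
      (4 * q * (l + 1) * ζ' * K ^ l2) * D ^ l2 := by
    have h5 : (K * D) ^ m * (K * D) ^ (l - 2 - m) = K ^ l2 * D ^ l2 := by
      rw [← pow_add, ← mul_pow]
      congr 1
      omega
    calc 4 * q * (K * D) ^ m * ((l + 1) * (ζ' * (K * D) ^ (l - 2 - m))) =
        4 * q * (l + 1) * ζ' * ((K * D) ^ m * (K * D) ^ (l - 2 - m)) := by ring
      _ = _ := by rw [h5]; ring
  rw [h4] at h3
  rw [hA] at hF2
  have h6 : D ≤ 4 * q * (l + 1) * ζ' * K ^ l2 :=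
    Nat.le_of_mul_le_mul_right (hF2.trans h3) hP
  have h7 : 4 * q * (l + 1) * ζ' * K ^ l2 ≤ 4 * q * (l + 1) * (2 * ζ + ζ' + 1) * K ^ l2 :=
    Nat.mul_le_mul_right _ (Nat.mul_le_mul_left _ (by omega))
  omega

end Pool.Agent.TH114.KGen
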