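import Pool.Agent.TH114.KGen

set_option autoImplicit false

open Classical

namespace Pool.Agent.TH114.KMvO

open Pool.Agent.TH476 Pool.Agent.TH476.KK Pool.Agent.TH114.KGen

variable {V : Type}

lemma walk_of [Fintype V] {G : SimpleGraph V} {B : ℕ → V → V → Prop} {l q D M' : ℕ}
    {𝓡 : Finset (Fin (l + 1) → V)} (hR : RSt G B l q D M' 𝓡) (p : Fin (l + 1) → V)
    (hp : p ∈ 𝓡) : (∀ i, i < l → G.Adj (ex l p i) (ex l p (i + 1))) ∧
      ∀ i i', i ≤ l → i' ≤ l → ex l p i = ex l p i' → i = i' := by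
  have h := hR.sub p hp
  unfold RCs at h
  rw [Finset.mem_filter] at h
  exact ⟨h.2.1.1, h.2.1.2.1⟩

/-- a vertex outside Z and S -/
lemma exists_out [Fintype V] [Nonempty V] {G : SimpleGraph V} {D K : ℕ} (hG : AR G D K)
    (Z S : Finset V) (h : Z.card + S.card < D) : ∃ v, v ∉ Z ∧ v ∉ S := by
  by_contra hcon
  push Not at hcon
  have h1 : (Finset.univ : Finset V) ⊆ Z ∪ S := by
    intro v _
    rw [Finset.mem_union]
    by_cases hv : v ∈ Z
    · exact Or.inl hv
    · exact Or.inr (hcon v hv)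
  have h2 := (hG.lo (Classical.arbitrary V)).trans (Finset.card_le_univ _)
  have h3 := Finset.card_le_card h1
  have h4 := Finset.card_union_le Z S
  rw [Finset.card_univ] at h3
  omega

/-- initial sets -/
lemma ini [Fintype V] {G : SimpleGraph V} {B : ℕ → V → V → Prop} {l q D M' : ℕ}
    {𝓡 : Finset (Fin (l + 1) → V)} (hl : 1 ≤ l) (hR : RSt G B l q D M' 𝓡) (ζ n0 : ℕ)
    (hD : q * ζ ≤ D) (hq : 0 < q) (hn : n0 ≤ ζ) : ∃ (w : V) (S : Finset V), S.card = n0 ∧
      w ∉ S ∧ ∀ s ∈ S, ∃ p ∈ 𝓡, ex l p 0 = s ∧ ex l p 1 = w := by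
  obtain ⟨p0, hp0⟩ := hR.ne
  have h1 := hR.cls p0 hp0 1 l hl le_rfl
  rw [show l - (l - 1) = 1 by omega, pow_one] at h1
  obtain ⟨F, hFm, h1⟩ : ∃ F : Finset (Fin (l + 1) → V),
      (∀ p ∈ F, p ∈ 𝓡 ∧ ∀ m, 1 ≤ m → m ≤ l → ex l p m = ex l p0 m) ∧ D ≤ q * F.card :=
    ⟨_, fun p hp => Finset.mem_filter.mp hp, h1⟩
  have h2 : (F.image (fun p => ex l p 0)).card = F.card := by
    refine Finset.card_image_of_injOn ?_
    intro p hp p' hp' h
    refine ex_ext fun i hi => ?_
    rcases Nat.eq_zero_or_pos i with h0 | h0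
    · rw [h0]; exact h
    · rw [(hFm p hp).2 i h0 hi, (hFm p' hp').2 i h0 hi]
  have h3 : n0 ≤ (F.image (fun p => ex l p 0)).card := by
    rw [h2]
    have : q * ζ ≤ q * F.card := hD.trans h1
    exact hn.trans (Nat.le_of_mul_le_mul_left this hq)
  obtain ⟨S, hS, hSc⟩ := Finset.exists_subset_card_eq h3
  refine ⟨ex l p0 1, S, hSc, ?_, ?_⟩
  · intro h
    obtain ⟨p, hp, hp1⟩ := Finset.mem_image.mp (hS h)
    have h4 := (hFm p hp).2 1 le_rfl hl
    have h5 := (walk_of hR p (hFm p hp).1).2 0 1 (by omega) hl (hp1.trans h4.symm)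
    omega
  · intro s hs
    obtain ⟨p, hp, hp1⟩ := Finset.mem_image.mp (hS hs)
    exact ⟨p, (hFm p hp).1, hp1, (hFm p hp).2 1 le_rfl hl⟩

/-- a path of length k + 1 = l + 2 t + 1 from p 0 to p l and to p (l - 1) -/
lemma sp [Fintype V] {G : SimpleGraph V} {B : ℕ → V → V → Prop} {l q D M' t k ζ2 : ℕ}
    {𝓡 : Finset (Fin (l + 1) → V)} (hl : 2 ≤ l) (hk : k = l + 2 * t)
    (hR : RSt G B l q D M' 𝓡)
    (hE : ∀ p ∈ 𝓡, ∀ Z : Finset V, Z.card ≤ ζ2 →
      ∃ P : ℕ → V, P 0 = ex l p 0 ∧ P (l + 2 * t) = ex l p l ∧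
      (∀ i, i < l + 2 * t → G.Adj (P i) (P (i + 1))) ∧
      (∀ i, 1 ≤ i → i < l + 2 * t → P i ∉ Z) ∧
      ∀ i i', i ≤ l + 2 * t → i' ≤ l + 2 * t → P i = P i' → i = i')
    (p : Fin (l + 1) → V) (hp : p ∈ 𝓡) (X : Finset V) (hX : X.card + 1 ≤ ζ2) :
    ∃ W : ℕ → V, W 0 = ex l p 0 ∧ W k = ex l p l ∧ W (k + 1) = ex l p (l - 1) ∧
      (∀ i, i ≤ k → G.Adj (W i) (W (i + 1))) ∧ (∀ i, 1 ≤ i → i < k → W i ∉ X) ∧
      ∀ i i', i ≤ k + 1 → i' ≤ k + 1 → W i = W i' → i = i' := by
  subst hk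
  obtain ⟨hw, hi⟩ := walk_of hR p hp
  obtain ⟨P, h0, h1, h2, h3, h4⟩ := hE p hp (insert (ex l p (l - 1)) X)
    ((Finset.card_insert_le _ _).trans hX)
  have hne : ∀ i, i ≤ l + 2 * t → P i ≠ ex l p (l - 1) := by
    intro i hile h
    rcases Nat.eq_zero_or_pos i with h5 | h5
    · rw [h5, h0] at h
      have := hi 0 (l - 1) (by omega) (by omega) h
      omega
    · rcases Nat.lt_or_ge i (l + 2 * t) with h6 | h6
      · exact h3 i h5 h6 (by rw [h]; exact Finset.mem_insert_self _ _)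
      · have h7 : i = l + 2 * t := by omega
        rw [h7, h1] at h
        have := hi l (l - 1) le_rfl (by omega) h
        omega
  obtain ⟨W, hW1, hW2⟩ : ∃ W : ℕ → V, (∀ i, i ≤ l + 2 * t → W i = P i) ∧
      ∀ i, l + 2 * t < i → W i = ex l p (l - 1) :=
    ⟨fun i => if i ≤ l + 2 * t then P i else ex l p (l - 1), fun i hi => if_pos hi,
      fun i hi => if_neg (by omega)⟩
  refine ⟨W, ?_, ?_, ?_, ?_, ?_, ?_⟩
  · rw [hW1 0 (by omega), h0]
  · rw [hW1 _ le_rfl, h1]
  · rw [hW2 _ (by omega)]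
  · intro i hile
    rw [hW1 i hile]
    rcases Nat.lt_or_ge i (l + 2 * t) with h6 | h6
    · rw [hW1 (i + 1) (by omega)]
      exact h2 i h6
    · have h7 : i = l + 2 * t := by omega
      rw [hW2 (i + 1) (by omega), h7, h1]
      have h8 := hw (l - 1) (by omega)
      rw [show l - 1 + 1 = l by omega] at h8
      exact h8.symm
  · intro i h5 h6 h7
    rw [hW1 i h6.le] at h7
    exact h3 i h5 h6 (Finset.mem_insert_of_mem h7)
  · intro i i' h5 h6 h7
    by_cases h8 : i ≤ l + 2 * t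
    · by_cases h9 : i' ≤ l + 2 * t
      · rw [hW1 i h8, hW1 i' h9] at h7
        exact h4 i i' h8 h9 h7
      · rw [hW1 i h8, hW2 i' (by omega)] at h7
        exact absurd h7 (hne i h8)
    · by_cases h9 : i' ≤ l + 2 * t
      · rw [hW2 i (by omega), hW1 i' h9] at h7
        exact absurd h7.symm (hne i' h9)
      · omega

/-- the relation between roots and centres -/
def Bd (l : ℕ) (𝓡 : Finset (Fin (l + 1) → V)) (a : Bool) (w s : V) : Prop :=
  if a then ∃ p ∈ 𝓡, ex l p (l - 2) = w ∧ ex l p (l - 1) = s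
  else ∃ p ∈ 𝓡, ex l p 0 = s ∧ ex l p 1 = w

theorem mvO_holds : S_RST → S_EXT → ∀ k l, 4 ≤ l → l ≤ k → (k + 1 - l) % 2 = 1 →
    S_MV k l := by
  intro hRST hEXT k l hl4 hlk hpar K Q hK hQ
  obtain ⟨t, ht⟩ : ∃ t, k = l + 2 * t := ⟨(k - l) / 2, by omega⟩
  obtain ⟨q, hq, hRST⟩ := hRST l K Q (by omega) hK hQ
  have hCpos : 0 < 4 * q * K ^ (l - 1) := by positivity
  refine ⟨4 * q * K ^ (l - 1), hCpos, fun F0 ζ => ?_⟩
  obtain ⟨ζ1, hζ1⟩ : ∃ ζ1, ζ1 = 2 * ζ + 1 + ζ * (k + 2) := ⟨_, rfl⟩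
  obtain ⟨M', D1, hEXT⟩ := hEXT l q F0 (ζ1 + 1) t (by omega) hq
  obtain ⟨M, hRST⟩ := hRST M'
  refine ⟨M, D1 + (4 * q * (l + 1) * (2 * ζ + ζ1 + 1) * K ^ l + 1) + (2 * ζ + 1) + q * ζ,
    ?_⟩
  intro V _ _ G D B hG hD hBs hRich hBN hden
  obtain ⟨𝓡, hR⟩ := hRST V G D B hG (by omega) hBs hRich hden
  have hE := hEXT V G D B 𝓡 hBs hBN (by omega) hR
  have hD1 : 4 * q * (l + 1) * (2 * ζ + ζ1 + 1) * K ^ l < D := by omega
  have hD2 : 2 * ζ < D := by omega
  have hD3 : q * ζ ≤ D := by omega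
  have hn'ζ : ∀ n' (S : Finset V), 4 * q * K ^ (l - 1) * n' ≤ S.card → S.card ≤ ζ → n' ≤ ζ := by
    intro n' S h1 h2
    have : 1 * n' ≤ 4 * q * K ^ (l - 1) * n' := Nat.mul_le_mul_right _ hCpos
    omega
  have hX0 : ∀ (Z S : Finset V) (ρ : V), Z.card ≤ ζ → S.card ≤ ζ →
      (insert ρ (Z ∪ S)).card ≤ 2 * ζ + 1 := by
    intro Z S ρ h1 h2
    have h3 := Finset.card_insert_le ρ (Z ∪ S)
    have h4 := Finset.card_union_le Z S
    omega
  have hζe : ∀ (Z S : Finset V) (ρ : V) (n' e : ℕ), Z.card ≤ ζ → S.card ≤ ζ → n' ≤ ζ →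
      e ≤ k + 1 → (insert ρ (Z ∪ S)).card + n' * (e + 1) ≤ ζ1 := by
    intro Z S ρ n' e h1 h2 h3 h4
    have h5 := hX0 Z S ρ h1 h2
    have h6 : n' * (e + 1) ≤ ζ * (k + 2) := Nat.mul_le_mul h3 (by omega)
    omega
  have hsel : ∀ (S Sg : Finset V) (n' : ℕ), 4 * q * K ^ (l - 1) * n' ≤ S.card →
      S.card ≤ 4 * q * K ^ (l - 1) * Sg.card → n' ≤ Sg.card := by
    intro S Sg n' h1 h2
    exact Nat.le_of_mul_le_mul_left (h1.trans h2) hCpos
  have hSne : ∀ (S : Finset V) (n' : ℕ), 4 * q * K ^ (l - 1) * n' ≤ S.card → n' ≠ 0 →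
      S.Nonempty := by
    intro S n' h1 h2
    rw [← Finset.card_pos]
    have : 0 < 4 * q * K ^ (l - 1) * n' := Nat.mul_pos hCpos (Nat.pos_of_ne_zero h2)
    omega
  refine ⟨Bool, Bd l 𝓡, fun _ _ => True, ⟨?_, ?_, ?_⟩, ?_⟩
  · -- adj
    intro a w s h
    cases a with
    | true =>
      simp only [Bd, if_true] at h
      obtain ⟨p, hp, h1, h2⟩ := h
      rw [← h1, ← h2]
      have := (walk_of hR p hp).1 (l - 2) (by omega)
      rwa [show l - 2 + 1 = l - 1 by omega] at this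
    | false =>
      simp only [Bd] at h
      obtain ⟨p, hp, h1, h2⟩ := h
      rw [← h1, ← h2]
      exact ((walk_of hR p hp).1 0 (by omega)).symm
  · -- legs
    intro n a _ w S Z n' hS hwZ hC hSζ hZζ
    rcases Nat.eq_zero_or_pos n' with h0 | h0
    · obtain ⟨ρ, h1, h2⟩ := exists_out hG Z S (by omega)
      subst h0
      exact ⟨ρ, h1, h2, fun l => l.elim0, fun l => l.elim0, fun l => l.elim0⟩
    have hn1 := hn'ζ n' S hC hSζ
    have hne := hSne S n' hC (by omega)
    cases a with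
    | false =>
      simp only [Bd] at hS
      obtain ⟨ρ, Sg, h1, h2, h3, h4, h5⟩ := ml hG hK hq hR 0 1 (l - 1) 1 (l - 2) (by omega)
        (by omega) le_rfl (by omega) (by omega) (by omega) (by omega) (by omega) (Or.inl rfl)
        ζ ζ1 hD1 w S Z hne hSζ hZζ (fun s hs => hS s hs)
      obtain ⟨P, hP1, hP2⟩ := gl k Sg (insert ρ (Z ∪ S)) ζ1
        (fun P => P (k + 1) = ρ ∧ ∀ i, i ≤ k → G.Adj (P i) (P (i + 1)))
        (fun s hs => Finset.mem_insert_of_mem (Finset.mem_union_right _ (h3 hs)))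
        (by
          intro s hs X hX hXX
          obtain ⟨p, hp, hp1, hp2, hp3, hp4⟩ := h5 s hs X hX
          obtain ⟨W, hW0, hWk, hWe, hWa, hWX, hWi⟩ := sp (by omega) ht hR hE p hp X (by omega)
          refine ⟨W, hW0.trans hp1, ⟨hWe.trans hp3, hWa⟩, ?_, ?_⟩
          · intro i hi1 hi2
            rcases Nat.lt_or_ge i k with h | h
            · exact hWX i hi1 h
            · have : i = k := by omega
              rw [this, hWk]
              exact hp4 l le_rfl (by omega) (by omega)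
          · intro i i' hi hi' h
            exact hWi i i' (by omega) (by omega) h)
        n' (hsel S Sg n' hC h4) (hζe Z S ρ n' k hZζ hSζ hn1 (by omega))
      refine ⟨ρ, h1, h2, P, ?_, hP2⟩
      intro j
      obtain ⟨hj1, hj2, hj3⟩ := hP1 j
      refine ⟨h3 hj1, hj2.1, hj2.2, fun i hi1 hi2 => ?_⟩
      have hj4 := hj3 i hi1 hi2
      exact ⟨fun h => hj4 (Finset.mem_insert_of_mem (Finset.mem_union_left _ h)),
        fun h => hj4 (Finset.mem_insert_of_mem (Finset.mem_union_right _ h)),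
        fun h => hj4 (by rw [h]; exact Finset.mem_insert_self _ _)⟩
    | true =>
      simp only [Bd, if_true] at hS
      obtain ⟨ρ, Sg, h1, h2, h3, h4, h5⟩ := ml hG hK hq hR (l - 1) (l - 2) 0 0 (l - 2)
        (by omega) (by omega) (by omega) (by omega) le_rfl (by omega) (by omega) (by omega)
        (Or.inr (by omega)) ζ ζ1 hD1 w S Z hne hSζ hZζ (fun s hs => by
          obtain ⟨p, hp, h6, h7⟩ := hS s hs
          exact ⟨p, hp, h7, h6⟩)
      obtain ⟨P, hP1, hP2⟩ := gl k Sg (insert ρ (Z ∪ S)) ζ1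
        (fun P => P (k + 1) = ρ ∧ ∀ i, i ≤ k → G.Adj (P i) (P (i + 1)))
        (fun s hs => Finset.mem_insert_of_mem (Finset.mem_union_right _ (h3 hs)))
        (by
          intro s hs X hX hXX
          obtain ⟨p, hp, hp1, hp2, hp3, hp4⟩ := h5 s hs X hX
          obtain ⟨W, hW0, hWk, hWe, hWa, hWX, hWi⟩ := sp (by omega) ht hR hE p hp X (by omega)
          refine ⟨fun i => W (k + 1 - i), ?_, ⟨?_, ?_⟩, ?_, ?_⟩
          · show W (k + 1 - 0) = s
            rw [Nat.sub_zero, hWe, hp1]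
          · show W (k + 1 - (k + 1)) = ρ
            rw [Nat.sub_self, hW0, hp3]
          · intro i hi
            have := hWa (k - i) (by omega)
            rw [show k - i + 1 = k + 1 - i by omega] at this
            show G.Adj (W (k + 1 - i)) (W (k + 1 - (i + 1)))
            rw [show k + 1 - (i + 1) = k - i by omega]
            exact this.symm
          · intro i hi1 hi2
            show W (k + 1 - i) ∉ X
            rcases Nat.lt_or_ge (k + 1 - i) k with h | h
            · exact hWX _ (by omega) h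
            · have : k + 1 - i = k := by omega
              rw [this, hWk]
              exact hp4 l le_rfl (by omega) (by omega)
          · intro i i' hi hi' h
            have := hWi (k + 1 - i) (k + 1 - i') (by omega) (by omega) h
            omega)
        n' (hsel S Sg n' hC h4) (hζe Z S ρ n' k hZζ hSζ hn1 (by omega))
      refine ⟨ρ, h1, h2, P, ?_, hP2⟩
      intro j
      obtain ⟨hj1, hj2, hj3⟩ := hP1 j
      refine ⟨h3 hj1, hj2.1, hj2.2, fun i hi1 hi2 => ?_⟩
      have hj4 := hj3 i hi1 hi2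
      exact ⟨fun h => hj4 (Finset.mem_insert_of_mem (Finset.mem_union_left _ h)),
        fun h => hj4 (Finset.mem_insert_of_mem (Finset.mem_union_right _ h)),
        fun h => hj4 (by rw [h]; exact Finset.mem_insert_self _ _)⟩
  · -- core moves
    intro n a _ w S Z n' hS hwZ hC hSζ hZζ
    rcases Nat.eq_zero_or_pos n' with h0 | h0
    · obtain ⟨ρ, h1, h2⟩ := exists_out hG Z S (by omega)
      subst h0
      exact ⟨a, trivial, ρ, h1, h2, fun l => l.elim0, fun l => l.elim0, fun l => l.elim0⟩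
    have hn1 := hn'ζ n' S hC hSζ
    have hne := hSne S n' hC (by omega)
    cases a with
    | false =>
      simp only [Bd] at hS
      obtain ⟨ρ, Sg, h1, h2, h3, h4, h5⟩ := ml hG hK hq hR 0 1 (l - 2) 1 (l - 3) (by omega)
        (by omega) le_rfl (by omega) (by omega) (by omega) (by omega) (by omega) (Or.inl rfl)
        ζ ζ1 hD1 w S Z hne hSζ hZζ (fun s hs => hS s hs)
      obtain ⟨P, hP1, hP2⟩ := gl (k + 1) Sg (insert ρ (Z ∪ S)) ζ1
        (fun P => Bd l 𝓡 true ρ (P (k + 1)) ∧ ∀ i, i ≤ k → G.Adj (P i) (P (i + 1)))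
        (fun s hs => Finset.mem_insert_of_mem (Finset.mem_union_right _ (h3 hs)))
        (by
          intro s hs X hX hXX
          obtain ⟨p, hp, hp1, hp2, hp3, hp4⟩ := h5 s hs X hX
          obtain ⟨W, hW0, hWk, hWe, hWa, hWX, hWi⟩ := sp (by omega) ht hR hE p hp X (by omega)
          refine ⟨W, hW0.trans hp1, ⟨?_, hWa⟩, ?_, hWi⟩
          · simp only [Bd, if_true]
            exact ⟨p, hp, hp3, hWe.symm⟩
          · intro i hi1 hi2
            rcases Nat.lt_or_ge i k with h | h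
            · exact hWX i hi1 h
            · rcases Nat.lt_or_ge i (k + 1) with h' | h'
              · have : i = k := by omega
                rw [this, hWk]
                exact hp4 l le_rfl (by omega) (by omega)
              · have : i = k + 1 := by omega
                rw [this, hWe]
                exact hp4 (l - 1) (by omega) (by omega) (by omega))
        n' (hsel S Sg n' hC h4) (hζe Z S ρ n' (k + 1) hZζ hSζ hn1 le_rfl)
      refine ⟨true, trivial, ρ, h1, h2, P, ?_, hP2⟩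
      intro j
      obtain ⟨hj1, hj2, hj3⟩ := hP1 j
      refine ⟨h3 hj1, hj2.1, hj2.2, fun i hi1 hi2 => ?_⟩
      have hj4 := hj3 i hi1 hi2
      exact ⟨fun h => hj4 (Finset.mem_insert_of_mem (Finset.mem_union_left _ h)),
        fun h => hj4 (Finset.mem_insert_of_mem (Finset.mem_union_right _ h)),
        fun h => hj4 (by rw [h]; exact Finset.mem_insert_self _ _)⟩
    | true =>
      simp only [Bd, if_true] at hS
      obtain ⟨ρ, Sg, h1, h2, h3, h4, h5⟩ := ml hG hK hq hR (l - 1) (l - 2) 1 1 (l - 3)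
        (by omega) (by omega) (by omega) (by omega) le_rfl (by omega) (by omega) (by omega)
        (Or.inr (by omega)) ζ ζ1 hD1 w S Z hne hSζ hZζ (fun s hs => by
          obtain ⟨p, hp, h6, h7⟩ := hS s hs
          exact ⟨p, hp, h7, h6⟩)
      obtain ⟨P, hP1, hP2⟩ := gl (k + 1) Sg (insert ρ (Z ∪ S)) ζ1
        (fun P => Bd l 𝓡 false ρ (P (k + 1)) ∧ ∀ i, i ≤ k → G.Adj (P i) (P (i + 1)))
        (fun s hs => Finset.mem_insert_of_mem (Finset.mem_union_right _ (h3 hs)))
        (by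
          intro s hs X hX hXX
          obtain ⟨p, hp, hp1, hp2, hp3, hp4⟩ := h5 s hs X hX
          obtain ⟨W, hW0, hWk, hWe, hWa, hWX, hWi⟩ := sp (by omega) ht hR hE p hp X (by omega)
          refine ⟨fun i => W (k + 1 - i), ?_, ⟨?_, ?_⟩, ?_, ?_⟩
          · show W (k + 1 - 0) = s
            rw [Nat.sub_zero, hWe, hp1]
          · show Bd l 𝓡 false ρ (W (k + 1 - (k + 1)))
            rw [Nat.sub_self]
            simp only [Bd]
            exact ⟨p, hp, hW0.symm, hp3⟩
          · intro i hi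
            have := hWa (k - i) (by omega)
            rw [show k - i + 1 = k + 1 - i by omega] at this
            show G.Adj (W (k + 1 - i)) (W (k + 1 - (i + 1)))
            rw [show k + 1 - (i + 1) = k - i by omega]
            exact this.symm
          · intro i hi1 hi2
            show W (k + 1 - i) ∉ X
            rcases Nat.lt_or_ge (k + 1 - i) k with h | h
            · rcases Nat.eq_zero_or_pos (k + 1 - i) with h' | h'
              · rw [h', hW0]
                exact hp4 0 (by omega) (by omega) (by omega)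
              · exact hWX _ h' h
            · have : k + 1 - i = k := by omega
              rw [this, hWk]
              exact hp4 l le_rfl (by omega) (by omega)
          · intro i i' hi hi' h
            have := hWi (k + 1 - i) (k + 1 - i') (by omega) (by omega) h
            omega)
        n' (hsel S Sg n' hC h4) (hζe Z S ρ n' (k + 1) hZζ hSζ hn1 le_rfl)
      refine ⟨false, trivial, ρ, h1, h2, P, ?_, hP2⟩
      intro j
      obtain ⟨hj1, hj2, hj3⟩ := hP1 j
      refine ⟨h3 hj1, hj2.1, hj2.2, fun i hi1 hi2 => ?_⟩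
      have hj4 := hj3 i hi1 hi2
      exact ⟨fun h => hj4 (Finset.mem_insert_of_mem (Finset.mem_union_left _ h)),
        fun h => hj4 (Finset.mem_insert_of_mem (Finset.mem_union_right _ h)),
        fun h => hj4 (by rw [h]; exact Finset.mem_insert_self _ _)⟩
  · -- initial sets
    intro n _ n0 hn0
    obtain ⟨w, S, h1, h2, h3⟩ := ini (by omega) hR ζ n0 hD3 hq hn0
    refine ⟨false, w, S, trivial, h1, h2, fun s hs => ?_⟩
    simp only [Bd]
    exact h3 s hs

end Pool.Agent.TH114.KMvO
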